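import Mathlib

/-!
Finite-dimensional modules over a semisimple algebra are determined by dimensions of Hom spaces.
-/

set_option linter.unusedSectionVars false
set_option linter.style.haveILetI false

namespace PermRep

open Module

universe u v w

section

variable (k : Type u) (A : Type v) [Field k] [Ring A] [Algebra k A]

/-- dimension of the Hom space -/
noncomputable def hd (M N : Type w) [AddCommGroup M] [AddCommGroup N] [Module A M] [Module A N]
    [Module k N] [IsScalarTower k A N] : ℕ :=
  finrank k (M →ₗ[A] N)

variable {M N M' N' S : Type w} [AddCommGroup M] [AddCommGroup N] [Module A M] [Module A N]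
  [Module k M] [Module k N] [IsScalarTower k A M] [IsScalarTower k A N]
  [AddCommGroup M'] [AddCommGroup N'] [Module A M'] [Module A N']
  [Module k M'] [Module k N'] [IsScalarTower k A M'] [IsScalarTower k A N']
  [AddCommGroup S] [Module A S] [Module k S] [IsScalarTower k A S]

lemma finite_hom [FiniteDimensional k M] [FiniteDimensional k N] :
    FiniteDimensional k (M →ₗ[A] N) :=
  FiniteDimensional.of_injective (LinearMap.restrictScalarsₗ k A M N k)
    (LinearMap.restrictScalars_injective k)

lemma hd_congr_left (e : M ≃ₗ[A] M') : hd k A M N = hd k A M' N :=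
  LinearEquiv.finrank_eq (LinearEquiv.congrLeft N k e)

lemma hd_congr_right (e : N ≃ₗ[A] N') : hd k A M N = hd k A M N' := by
  refine LinearEquiv.finrank_eq ?_
  exact {
    toFun := fun f => e.toLinearMap.comp f
    invFun := fun f => e.symm.toLinearMap.comp f
    map_add' := fun f g => by ext; simp
    map_smul' := fun c f => by
      ext x
      simp only [LinearMap.coe_comp, LinearEquiv.coe_coe, Function.comp_apply,
        LinearMap.smul_apply, RingHom.id_apply]
      rw [← algebraMap_smul A c (f x), map_smul, algebraMap_smul]
    left_inv := fun f => by ext; simp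
    right_inv := fun f => by ext; simp }

lemma hd_prod_left [FiniteDimensional k M] [FiniteDimensional k M'] [FiniteDimensional k N] :
    hd k A (M × M') N = hd k A M N + hd k A M' N := by
  haveI := finite_hom k A (M := M) (N := N)
  haveI := finite_hom k A (M := M') (N := N)
  unfold hd
  rw [← LinearEquiv.finrank_eq (LinearMap.coprodEquiv (R := A) (M := M) (M₂ := M') (M₃ := N) k),
    Module.finrank_prod]

lemma hd_prod_right [FiniteDimensional k M] [FiniteDimensional k N] [FiniteDimensional k N'] :
    hd k A M (N × N') = hd k A M N + hd k A M N' := by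
  haveI := finite_hom k A (M := M) (N := N)
  haveI := finite_hom k A (M := M) (N := N')
  unfold hd
  rw [← LinearEquiv.finrank_eq (LinearMap.prodEquiv (R := A) (M := M) (M₂ := N) (M₃ := N') k),
    Module.finrank_prod]

lemma exists_split [IsSemisimpleModule A M] [IsSemisimpleModule A N] (f : M →ₗ[A] N)
    (hf : f ≠ 0) : ∃ (T M₁ : Submodule A M) (N₁ : Submodule A N), Nontrivial T ∧
      Nonempty (M ≃ₗ[A] T × M₁) ∧ Nonempty (N ≃ₗ[A] T × N₁) := by
  -- a simple submodule on which `f` does not vanish
  have h1 : ∃ T : Submodule A M, IsSimpleModule A T ∧ ¬ T ≤ LinearMap.ker f := by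
    by_contra hcon
    push Not at hcon
    apply hf
    have : (⊤ : Submodule A M) ≤ LinearMap.ker f := by
      rw [← IsSemisimpleModule.sSup_simples_eq_top A M]
      exact sSup_le fun T hT => hcon T hT
    ext x
    exact this (Submodule.mem_top (x := x))
  obtain ⟨T, hT, hTf⟩ := h1
  haveI := hT
  have hinj : Function.Injective (f.comp T.subtype) := by
    rcases LinearMap.injective_or_eq_zero (f.comp T.subtype) with h | h
    · exact h
    · exfalso
      apply hTf
      intro x hx
      exact LinearMap.congr_fun h ⟨x, hx⟩
  obtain ⟨M₁, hM₁⟩ := exists_isCompl T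
  obtain ⟨N₁, hN₁⟩ := exists_isCompl (LinearMap.range (f.comp T.subtype))
  refine ⟨T, M₁, N₁, IsSimpleModule.nontrivial A T, ⟨(Submodule.prodEquivOfIsCompl _ _ hM₁).symm⟩,
    ⟨(Submodule.prodEquivOfIsCompl _ _ hN₁).symm.trans
      (LinearEquiv.prodCongr (LinearEquiv.ofInjective _ hinj).symm (LinearEquiv.refl A N₁))⟩⟩

end

lemma fd_submodule (k : Type u) (A : Type v) [Field k] [Ring A] [Algebra k A] {M : Type w}
    [AddCommGroup M] [Module A M] [Module k M] [IsScalarTower k A M] [FiniteDimensional k M]
    (T : Submodule A M) : FiniteDimensional k T :=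
  FiniteDimensional.of_injective (T.subtype.restrictScalars k) (Submodule.subtype_injective T)

theorem iso_of_hd (k : Type u) (A : Type v) [Field k] [Ring A] [Algebra k A] [IsSemisimpleRing A] :
    ∀ (n : ℕ) (M N : Type w) [AddCommGroup M] [AddCommGroup N] [Module A M] [Module A N]
      [Module k M] [Module k N] [IsScalarTower k A M] [IsScalarTower k A N]
      [FiniteDimensional k M] [FiniteDimensional k N], finrank k M = n →
      hd k A M M + hd k A N N = hd k A M N + hd k A N M → Nonempty (M ≃ₗ[A] N) := by
  intro n
  induction n using Nat.strong_induction_on with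
  | _ n ih =>
    intro M N _ _ _ _ _ _ _ _ _ _ hn hD
    by_cases h0 : (∀ f : M →ₗ[A] N, f = 0) ∧ (∀ f : N →ₗ[A] M, f = 0)
    · obtain ⟨h1, h2⟩ := h0
      have e1 : hd k A M N = 0 := by
        haveI : Subsingleton (M →ₗ[A] N) := ⟨fun f g => by rw [h1 f, h1 g]⟩
        exact finrank_zero_of_subsingleton
      have e2 : hd k A N M = 0 := by
        haveI : Subsingleton (N →ₗ[A] M) := ⟨fun f g => by rw [h2 f, h2 g]⟩
        exact finrank_zero_of_subsingleton
      rw [e1, e2] at hD
      haveI := finite_hom k A (M := M) (N := M)
      haveI := finite_hom k A (M := N) (N := N)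
      have e3 : hd k A M M = 0 := by omega
      have e4 : hd k A N N = 0 := by omega
      have s1 : Subsingleton (M →ₗ[A] M) := finrank_zero_iff.mp e3
      have s2 : Subsingleton (N →ₗ[A] N) := finrank_zero_iff.mp e4
      haveI : Subsingleton M := ⟨fun x y => by
        have : (LinearMap.id : M →ₗ[A] M) = 0 := Subsingleton.elim _ _
        have hx := LinearMap.congr_fun this x
        have hy := LinearMap.congr_fun this y
        simp at hx hy
        rw [hx, hy]⟩
      haveI : Subsingleton N := ⟨fun x y => by
        have : (LinearMap.id : N →ₗ[A] N) = 0 := Subsingleton.elim _ _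
        have hx := LinearMap.congr_fun this x
        have hy := LinearMap.congr_fun this y
        simp at hx hy
        rw [hx, hy]⟩
      exact ⟨{ toFun := 0, map_add' := by simp, map_smul' := by simp, invFun := 0,
               left_inv := fun x => Subsingleton.elim _ _,
               right_inv := fun x => Subsingleton.elim _ _ }⟩
    · -- split off a common summand
      have key : ∃ (T : Type w) (_ : AddCommGroup T) (_ : Module A T) (_ : Module k T)
          (_ : IsScalarTower k A T) (_ : FiniteDimensional k T) (M₁ : Submodule A M)
          (N₁ : Submodule A N), Nontrivial T ∧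
          Nonempty (M ≃ₗ[A] T × M₁) ∧ Nonempty (N ≃ₗ[A] T × N₁) := by
        rw [not_and_or] at h0
        rcases h0 with h0 | h0
        · push Not at h0
          obtain ⟨f, hf⟩ := h0
          obtain ⟨T, M₁, N₁, hT, hM, hN⟩ := exists_split A f hf
          exact ⟨T, inferInstance, inferInstance, inferInstance, inferInstance,
            fd_submodule k A T, M₁, N₁, hT, hM, hN⟩
        · push Not at h0
          obtain ⟨f, hf⟩ := h0
          obtain ⟨T, N₁, M₁, hT, hN, hM⟩ := exists_split A f hf
          exact ⟨T, inferInstance, inferInstance, inferInstance, inferInstance,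
            fd_submodule k A T, M₁, N₁, hT, hM, hN⟩
      obtain ⟨T, _, _, _, _, _, M₁, N₁, hT, ⟨eM⟩, ⟨eN⟩⟩ := key
      haveI := fd_submodule k A M₁
      haveI := fd_submodule k A N₁
      have hdim : finrank k M = finrank k T + finrank k M₁ := by
        rw [LinearEquiv.finrank_eq (eM.restrictScalars k), Module.finrank_prod]
      have hTpos : 0 < finrank k T := finrank_pos
      have a1 : hd k A M M = hd k A T T + hd k A T M₁ + (hd k A M₁ T + hd k A M₁ M₁) := by
        rw [hd_congr_left k A eM, hd_congr_right k A eM, hd_prod_left, hd_prod_right,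
          hd_prod_right]
      have a2 : hd k A N N = hd k A T T + hd k A T N₁ + (hd k A N₁ T + hd k A N₁ N₁) := by
        rw [hd_congr_left k A eN, hd_congr_right k A eN, hd_prod_left, hd_prod_right,
          hd_prod_right]
      have a3 : hd k A M N = hd k A T T + hd k A T N₁ + (hd k A M₁ T + hd k A M₁ N₁) := by
        rw [hd_congr_left k A eM, hd_congr_right k A eN, hd_prod_left, hd_prod_right,
          hd_prod_right]
      have a4 : hd k A N M = hd k A T T + hd k A T M₁ + (hd k A N₁ T + hd k A N₁ M₁) := by
        rw [hd_congr_left k A eN, hd_congr_right k A eM, hd_prod_left, hd_prod_right,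
          hd_prod_right]
      obtain ⟨e⟩ := ih (finrank k M₁) (by omega) M₁ N₁ rfl (by omega)
      exact ⟨eM.trans ((LinearEquiv.prodCongr (LinearEquiv.refl A T) e).trans eN.symm)⟩

/-- cancellation of summands -/
theorem cancel_of_semisimple (k : Type u) (A : Type v) [Field k] [Ring A] [Algebra k A]
    [IsSemisimpleRing A] (M N K : Type w) [AddCommGroup M] [AddCommGroup N] [AddCommGroup K]
    [Module A M] [Module A N] [Module A K]
    [Module k M] [Module k N] [Module k K] [IsScalarTower k A M] [IsScalarTower k A N]
    [IsScalarTower k A K] [FiniteDimensional k M] [FiniteDimensional k N] [FiniteDimensional k K]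
    (e : (M × K) ≃ₗ[A] (N × K)) : Nonempty (M ≃ₗ[A] N) := by
  apply iso_of_hd k A _ M N rfl
  have b1 : hd k A M (M × K) = hd k A M (N × K) := hd_congr_right k A e
  have b2 : hd k A N (M × K) = hd k A N (N × K) := hd_congr_right k A e
  rw [hd_prod_right, hd_prod_right] at b1 b2
  omega

end PermRep
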