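import Mathlib
import Pool.Agent.Lib_helper97.Perm.Iso

/-!
Permutation representations with equal fixed point counts have invertible-over-`ℚ` integral
intertwiners.
-/

set_option linter.unusedSectionVars false
set_option linter.style.haveILetI false

namespace PermRep

open Module

universe u

variable {G : Type*} [Group G] {X Y : Type u} [Fintype X] [Fintype Y] [DecidableEq X]
  [DecidableEq Y] [MulAction G X] [MulAction G Y]

variable (G X) in
/-- the permutation representation on functions -/
def permRep : Representation ℚ G (X → ℚ) where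
  toFun g := LinearMap.funLeft ℚ ℚ (fun x : X => g⁻¹ • x)
  map_one' := by ext f x; simp [LinearMap.funLeft_apply]
  map_mul' g h := by
    ext f x
    simp [LinearMap.funLeft_apply, mul_smul]

lemma permRep_apply (g : G) (f : X → ℚ) (x : X) : permRep G X g f x = f (g⁻¹ • x) := rfl

lemma permRep_single (g : G) (x : X) :
    permRep G X g (Pi.single x 1) = Pi.single (g • x) (1 : ℚ) := by
  ext y
  rw [permRep_apply]
  by_cases h : y = g • x
  · subst h; simp
  · have h' : g⁻¹ • y ≠ x := fun hh => h (by rw [← hh]; simp)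
    rw [Pi.single_eq_of_ne h', Pi.single_eq_of_ne h]

lemma character_permRep (g : G) :
    (permRep G X).character g = (Nat.card (MulAction.fixedBy X g) : ℚ) := by
  unfold Representation.character
  rw [LinearMap.trace_eq_matrix_trace ℚ (Pi.basisFun ℚ X)]
  unfold Matrix.trace
  have : ∀ x : X, (LinearMap.toMatrix (Pi.basisFun ℚ X) (Pi.basisFun ℚ X) (permRep G X g)).diag x
      = if g • x = x then 1 else 0 := by
    intro x
    rw [Matrix.diag_apply, LinearMap.toMatrix_apply]
    simp only [Pi.basisFun_apply, Pi.basisFun_repr]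
    rw [permRep_single]
    by_cases h : g • x = x
    · rw [if_pos h, h]; simp
    · rw [if_neg h, Pi.single_eq_of_ne (fun hh => h hh.symm)]
  rw [Finset.sum_congr rfl fun x _ => this x, Finset.sum_boole]
  congr 1
  rw [Nat.card_eq_fintype_card, Fintype.card_subtype]
  rfl

variable [Finite G]

theorem perm_iso (h : ∀ g : G, Nat.card (MulAction.fixedBy X g) = Nat.card (MulAction.fixedBy Y g)) :
    Nonempty ((permRep G X).asModule ≃ₗ[MonoidAlgebra ℚ G] (permRep G Y).asModule) := by
  haveI := Fintype.ofFinite G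
  haveI : NeZero (Nat.card G : ℚ) := ⟨by exact_mod_cast Nat.card_pos.ne'⟩
  haveI : Invertible (Nat.card G : ℚ) := invertibleOfNonzero (NeZero.ne _)
  haveI : IsSemisimpleRing (MonoidAlgebra ℚ G) := inferInstance
  apply iso_of_hd ℚ (MonoidAlgebra ℚ G) _ _ _ rfl
  have hc : ∀ g, (permRep G X).character g = (permRep G Y).character g := by
    intro g; rw [character_permRep, character_permRep, h g]
  have key : ∀ {Z W : Type u} [Fintype Z] [Fintype W] [DecidableEq Z] [DecidableEq W]
      [MulAction G Z] [MulAction G W],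
      ((Nat.card G : ℚ)⁻¹ * ∑ g : G, (permRep G W).character g * (permRep G Z).character g⁻¹)
        = (hd ℚ (MonoidAlgebra ℚ G) (permRep G Z).asModule (permRep G W).asModule : ℚ) := by
    intro Z W _ _ _ _ _ _
    rw [Representation.card_inv_mul_sum_char_mul_char_eq_finrank (permRep G Z) (permRep G W)]
    unfold hd
    rw [LinearEquiv.finrank_eq (Representation.IntertwiningMap.equivLinearMapAsModule
      (ρ := permRep G Z) (σ := permRep G W))]
  have e1 := key (Z := X) (W := X)
  have e2 := key (Z := Y) (W := Y)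
  have e3 := key (Z := X) (W := Y)
  have e4 := key (Z := Y) (W := X)
  simp only [hc] at e1 e2 e3 e4
  have : ((hd ℚ (MonoidAlgebra ℚ G) (permRep G X).asModule (permRep G X).asModule
      + hd ℚ (MonoidAlgebra ℚ G) (permRep G Y).asModule (permRep G Y).asModule : ℕ) : ℚ)
      = ((hd ℚ (MonoidAlgebra ℚ G) (permRep G X).asModule (permRep G Y).asModule
      + hd ℚ (MonoidAlgebra ℚ G) (permRep G Y).asModule (permRep G X).asModule : ℕ) : ℚ) := by
    push_cast
    rw [← e1, ← e2, ← e3, ← e4]
  exact_mod_cast this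

theorem perm_equiv (h : ∀ g : G, Nat.card (MulAction.fixedBy X g) = Nat.card (MulAction.fixedBy Y g)) :
    ∃ e : (X → ℚ) ≃ₗ[ℚ] (Y → ℚ), ∀ g f, e (permRep G X g f) = permRep G Y g (e f) := by
  obtain ⟨e⟩ := perm_iso (G := G) (X := X) (Y := Y) h
  refine ⟨(permRep G X).asModuleEquiv.symm.trans
    ((e.restrictScalars ℚ).trans (permRep G Y).asModuleEquiv), fun g f => ?_⟩
  exact Representation.IntertwiningMap.isIntertwining _ _
    ((Representation.IntertwiningMap.equivLinearMapAsModule
      (ρ := permRep G X) (σ := permRep G Y)).symm e.toLinearMap) g f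

theorem exists_intertwiner (G : Type*) [Group G] [Finite G] (X Y : Type u) [Fintype X] [Fintype Y]
    [DecidableEq X] [DecidableEq Y] [MulAction G X] [MulAction G Y]
    (h : ∀ g : G, Nat.card (MulAction.fixedBy X g) = Nat.card (MulAction.fixedBy Y g)) :
    ∃ (P : Matrix Y X ℤ) (Q : Matrix X Y ℤ) (t : ℤ), t ≠ 0 ∧ Q * P = t • (1 : Matrix X X ℤ) ∧
      P * Q = t • (1 : Matrix Y Y ℤ) ∧ (∀ (g : G) (y : Y) (x : X), P (g • y) (g • x) = P y x) ∧
      (∀ (g : G) (x : X) (y : Y), Q (g • x) (g • y) = Q x y) := by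
  obtain ⟨e, he⟩ := perm_equiv (G := G) (X := X) (Y := Y) h
  have he' : ∀ g f, e.symm (permRep G Y g f) = permRep G X g (e.symm f) := by
    intro g f
    rw [LinearEquiv.symm_apply_eq, he, LinearEquiv.apply_symm_apply]
  let P0 : Matrix Y X ℚ := fun y x => e (Pi.single x 1) y
  let Q0 : Matrix X Y ℚ := fun x y => e.symm (Pi.single y 1) x
  have hP0 : P0 = LinearMap.toMatrix' e.toLinearMap := by
    ext y x; simp [P0, LinearMap.toMatrix'_apply]
  have hQ0 : Q0 = LinearMap.toMatrix' e.symm.toLinearMap := by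
    ext y x; simp [Q0, LinearMap.toMatrix'_apply]
  have hQP : Q0 * P0 = 1 := by
    rw [hP0, hQ0, ← LinearMap.toMatrix'_comp]; simp
  have hPQ : P0 * Q0 = 1 := by
    rw [hP0, hQ0, ← LinearMap.toMatrix'_comp]; simp
  have eqP : ∀ (g : G) (y : Y) (x : X), P0 (g • y) (g • x) = P0 y x := by
    intro g y x
    show e (Pi.single (g • x) 1) (g • y) = e (Pi.single x 1) y
    rw [← permRep_single, he, permRep_apply, inv_smul_smul]
  have eqQ : ∀ (g : G) (x : X) (y : Y), Q0 (g • x) (g • y) = Q0 x y := by
    intro g x y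
    show e.symm (Pi.single (g • y) 1) (g • x) = e.symm (Pi.single y 1) x
    rw [← permRep_single, he', permRep_apply, inv_smul_smul]
  obtain ⟨⟨a, ha⟩, ha'⟩ := IsLocalization.exist_integer_multiples_of_finite (nonZeroDivisors ℤ)
    (fun p : Y × X => P0 p.1 p.2)
  obtain ⟨⟨b, hb⟩, hb'⟩ := IsLocalization.exist_integer_multiples_of_finite (nonZeroDivisors ℤ)
    (fun p : X × Y => Q0 p.1 p.2)
  have ha0 : a ≠ 0 := nonZeroDivisors.ne_zero ha
  have hb0 : b ≠ 0 := nonZeroDivisors.ne_zero hb
  choose P hP using ha'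
  choose Q hQ using hb'
  have hPc : ∀ y x, ((P (y, x) : ℤ) : ℚ) = a * P0 y x := by
    intro y x; simpa using hP (y, x)
  have hQc : ∀ x y, ((Q (x, y) : ℤ) : ℚ) = b * Q0 x y := by
    intro y x; simpa using hQ (y, x)
  refine ⟨Matrix.of fun y x => P (y, x), Matrix.of fun x y => Q (x, y), a * b,
    mul_ne_zero ha0 hb0, ?_, ?_, ?_, ?_⟩
  · ext x x'
    have h1 := congrFun (congrFun hQP x) x'
    rw [Matrix.mul_apply] at h1
    have : (((Matrix.of fun x y => Q (x, y)) * (Matrix.of fun y x => P (y, x)) : Matrix X X ℤ) x x' : ℚ)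
        = (((a * b) • (1 : Matrix X X ℤ)) x x' : ℤ) := by
      rw [Matrix.mul_apply]
      push_cast
      simp only [Matrix.of_apply, hPc, hQc]
      rw [show (∑ y, (b : ℚ) * Q0 x y * (a * P0 y x')) = a * b * ∑ y, Q0 x y * P0 y x' by
        rw [Finset.mul_sum]; exact Finset.sum_congr rfl fun y _ => by ring]
      rw [h1]
      by_cases hx : x = x'
      · subst hx; simp
      · simp [hx]
    exact_mod_cast this
  · ext y y'
    have h1 := congrFun (congrFun hPQ y) y'
    rw [Matrix.mul_apply] at h1
    have : (((Matrix.of fun y x => P (y, x)) * (Matrix.of fun x y => Q (x, y)) : Matrix Y Y ℤ) y y' : ℚ)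
        = (((a * b) • (1 : Matrix Y Y ℤ)) y y' : ℤ) := by
      rw [Matrix.mul_apply]
      push_cast
      simp only [Matrix.of_apply, hPc, hQc]
      rw [show (∑ x, (a : ℚ) * P0 y x * (b * Q0 x y')) = a * b * ∑ x, P0 y x * Q0 x y' by
        rw [Finset.mul_sum]; exact Finset.sum_congr rfl fun y _ => by ring]
      rw [h1]
      by_cases hx : y = y'
      · subst hx; simp
      · simp [hx]
    exact_mod_cast this
  · intro g y x
    have : ((P (g • y, g • x) : ℤ) : ℚ) = P (y, x) := by rw [hPc, hPc, eqP]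
    exact_mod_cast this
  · intro g x y
    have : ((Q (g • x, g • y) : ℤ) : ℚ) = Q (x, y) := by rw [hQc, hQc, eqQ]
    exact_mod_cast this

end PermRep
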