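import Mathlib
import Pool.Agent.Lib_helper97.Perm.Intertwine

/-!
Finite rings have stable range one; cancellation of modules over `ℚ[G]`.
-/

set_option linter.unusedSectionVars false
set_option linter.style.haveILetI false

namespace PermRep

open Module

universe w

lemma isUnit_of_left {S : Type*} [Ring S] [Finite S] {z a : S} (h : z * a = 1) : IsUnit a := by
  have h2 : a * z = 1 := mul_eq_one_symm h
  exact ⟨⟨a, z, h2, h⟩, rfl⟩

theorem sr_semisimple {S : Type*} [Ring S] [Finite S] [IsSemisimpleRing S] (a b x y : S)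
    (h : x * a + y * b = 1) : ∃ t : S, IsUnit (a + t * b) := by
  classical
  obtain ⟨t, ht⟩ := Finite.exists_max (fun t : S => Nat.card (Set.range (fun s => s * (a + t * b))))
  refine ⟨t, ?_⟩
  set a0 := a + t * b with ha0
  have hxy : x * a0 + (y - x * t) * b = 1 := by
    rw [ha0, ← h]; noncomm_ring
  -- the left annihilator
  let L : Ideal S := LinearMap.ker (LinearMap.toSpanSingleton S S a0)
  have hL : ∀ s, s ∈ L ↔ s * a0 = 0 := by
    intro s
    simp [L, LinearMap.mem_ker, LinearMap.toSpanSingleton_apply]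
  obtain ⟨e, he, hLe⟩ := IsSemisimpleRing.ideal_eq_span_idempotent L
  have heL : e * a0 = 0 := by
    rw [← hL, hLe]; exact Ideal.subset_span rfl
  have hee : e * e = e := he
  -- maximality
  have hmax : ∀ u : S, ∃ r : S, e * u * b = r * a0 := by
    intro u
    have h1 := ht (t + e * u)
    have ha' : a + (t + e * u) * b = a0 + e * u * b := by rw [ha0]; noncomm_ring
    simp only [ha'] at h1
    have hsub : Set.range (fun s : S => s * a0) ⊆ Set.range (fun s => s * (a0 + e * u * b)) := by
      rintro _ ⟨s, rfl⟩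
      refine ⟨s * (1 - e), ?_⟩
      show s * (1 - e) * (a0 + e * u * b) = s * a0
      have : (1 - e) * (a0 + e * u * b) = a0 - e * a0 + (e - e * e) * u * b := by noncomm_ring
      rw [mul_assoc, this, heL, hee]
      simp
    have heq : Set.range (fun s : S => s * a0) = Set.range (fun s => s * (a0 + e * u * b)) := by
      apply Set.eq_of_subset_of_ncard_le hsub _ (Set.toFinite _)
      simpa [Set.ncard] using h1
    have hmem : e * u * b ∈ Set.range (fun s => s * (a0 + e * u * b)) := by
      refine ⟨e, ?_⟩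
      show e * (a0 + e * u * b) = e * u * b
      rw [mul_add, heL, zero_add, ← mul_assoc, ← mul_assoc, hee]
    rw [← heq] at hmem
    obtain ⟨r, hr⟩ := hmem
    exact ⟨r, hr.symm⟩
  -- the two-sided ideal generated by `e`
  let T : AddSubgroup S := AddSubgroup.closure {s | ∃ p q, s = p * e * q}
  have hTa : ∀ s ∈ T, s * a0 ∈ T := by
    intro s hs
    induction hs using AddSubgroup.closure_induction with
    | mem s hs =>
      obtain ⟨p, q, rfl⟩ := hs
      exact AddSubgroup.subset_closure ⟨p, q * a0, by noncomm_ring⟩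
    | zero => rw [zero_mul]; exact T.zero_mem
    | add s s' _ _ h1 h2 => rw [add_mul]; exact T.add_mem h1 h2
    | neg s _ h1 => rw [neg_mul]; exact T.neg_mem h1
  have hTsurj : ∀ s ∈ T, ∃ s' ∈ T, s' * a0 = s := by
    intro s hs
    induction hs using AddSubgroup.closure_induction with
    | mem s hs =>
      obtain ⟨p, q, rfl⟩ := hs
      obtain ⟨r, hr⟩ := hmax (q * (y - x * t))
      refine ⟨p * e * (e * q * x + r), AddSubgroup.subset_closure ⟨p, e * q * x + r, rfl⟩, ?_⟩
      have e1 : e * q = (e * q * x + r) * a0 := by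
        calc e * q = e * q * (x * a0 + (y - x * t) * b) := by rw [hxy, mul_one]
          _ = e * q * x * a0 + e * (q * (y - x * t)) * b := by noncomm_ring
          _ = (e * q * x + r) * a0 := by rw [hr, add_mul]
      calc p * e * (e * q * x + r) * a0 = p * e * ((e * q * x + r) * a0) := by rw [mul_assoc]
        _ = p * (e * e) * q := by rw [← e1]; noncomm_ring
        _ = p * e * q := by rw [hee]
    | zero => exact ⟨0, T.zero_mem, by simp⟩
    | add s s' _ _ h1 h2 =>
      obtain ⟨u, hu, hu'⟩ := h1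
      obtain ⟨v, hv, hv'⟩ := h2
      exact ⟨u + v, T.add_mem hu hv, by rw [add_mul, hu', hv']⟩
    | neg s _ h1 =>
      obtain ⟨u, hu, hu'⟩ := h1
      exact ⟨-u, T.neg_mem hu, by rw [neg_mul, hu']⟩
  let φ : T → T := fun s => ⟨s.1 * a0, hTa s.1 s.2⟩
  have hφs : Function.Surjective φ := by
    rintro ⟨s, hs⟩
    obtain ⟨s', hs', h1⟩ := hTsurj s hs
    exact ⟨⟨s', hs'⟩, Subtype.ext h1⟩
  have hφi : Function.Injective φ := Finite.injective_iff_surjective.mpr hφs
  have heT : e ∈ T := AddSubgroup.subset_closure ⟨1, 1, by simp⟩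
  have he0 : e = 0 := by
    have : φ ⟨e, heT⟩ = φ 0 := Subtype.ext (by simp [φ, heL])
    have := hφi this
    exact congrArg Subtype.val this
  have hLbot : L = ⊥ := by rw [hLe, he0]; simp
  have hinj : Function.Injective (fun s : S => s * a0) := by
    intro s s' hs
    have : s - s' ∈ L := by
      rw [hL, sub_mul]
      exact sub_eq_zero.mpr hs
    rw [hLbot] at this
    exact sub_eq_zero.mp this
  obtain ⟨z, hz⟩ := (Finite.injective_iff_surjective.mp hinj) 1
  exact isUnit_of_left hz

/-- **finite rings have stable range one** -/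
theorem sr_finite (S : Type*) [Ring S] [Finite S] (a b x y : S) (h : x * a + y * b = 1) :
    ∃ t : S, IsUnit (a + t * b) := by
  haveI : IsSemiprimaryRing S := inferInstance
  haveI hss : IsSemisimpleRing (S ⧸ Ring.jacobson S) := IsSemiprimaryRing.isSemisimpleRing
  let π : S →+* S ⧸ Ring.jacobson S := Ideal.Quotient.mk _
  haveI : Finite (S ⧸ Ring.jacobson S) := Finite.of_surjective π Ideal.Quotient.mk_surjective
  obtain ⟨t', ht'⟩ := sr_semisimple (π a) (π b) (π x) (π y) (by
    rw [← map_mul, ← map_mul, ← map_add, h, map_one])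
  obtain ⟨t, rfl⟩ := Ideal.Quotient.mk_surjective t'
  refine ⟨t, ?_⟩
  obtain ⟨w', hw'⟩ := ht'.exists_left_inv
  obtain ⟨w, rfl⟩ := Ideal.Quotient.mk_surjective w'
  have h1 : w * (a + t * b) - 1 ∈ Ring.jacobson S := by
    rw [← Ideal.Quotient.eq]
    simpa [π] using hw'
  have h2 : Ideal.span {w * (a + t * b)} = ⊤ := by
    by_contra hne
    obtain ⟨M, hM, hle⟩ := Ideal.exists_le_maximal _ hne
    have h3 : w * (a + t * b) - 1 ∈ M := by
      rw [Ring.jacobson_eq_sInf_isMaximal] at h1
      exact (Ideal.mem_sInf.mp h1) hM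
    have h4 : w * (a + t * b) ∈ M := hle (Ideal.subset_span rfl)
    have h5 : (1 : S) ∈ M := by
      have := M.sub_mem h4 h3
      simpa using this
    exact hM.ne_top ((Ideal.eq_top_iff_one M).mpr h5)
  have h6 : (1 : S) ∈ Ideal.span {w * (a + t * b)} := by rw [h2]; exact Submodule.mem_top
  rw [Ideal.mem_span_singleton'] at h6
  obtain ⟨v, hv⟩ := h6
  exact isUnit_of_left (z := v * w) (by rw [mul_assoc]; exact hv)

/-- **cancellation** for finite modules over `ℚ[G]` -/
theorem cancel (G : Type*) [Group G] [Finite G] (M N K : Type w)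
    [AddCommGroup M] [Module (MonoidAlgebra ℚ G) M] [Module.Finite (MonoidAlgebra ℚ G) M]
    [AddCommGroup N] [Module (MonoidAlgebra ℚ G) N] [Module.Finite (MonoidAlgebra ℚ G) N]
    [AddCommGroup K] [Module (MonoidAlgebra ℚ G) K] [Module.Finite (MonoidAlgebra ℚ G) K]
    (e : (M × K) ≃ₗ[MonoidAlgebra ℚ G] (N × K)) : Nonempty (M ≃ₗ[MonoidAlgebra ℚ G] N) := by
  haveI : NeZero (Nat.card G : ℚ) := ⟨by exact_mod_cast Nat.card_pos.ne'⟩
  haveI : IsSemisimpleRing (MonoidAlgebra ℚ G) := inferInstance
  haveI : Module.Finite ℚ (MonoidAlgebra ℚ G) := inferInstance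
  letI : Module ℚ M := Module.compHom M (algebraMap ℚ (MonoidAlgebra ℚ G))
  letI : Module ℚ N := Module.compHom N (algebraMap ℚ (MonoidAlgebra ℚ G))
  letI : Module ℚ K := Module.compHom K (algebraMap ℚ (MonoidAlgebra ℚ G))
  haveI : IsScalarTower ℚ (MonoidAlgebra ℚ G) M := ⟨fun q a x => by
    rw [Algebra.smul_def, mul_smul]; rfl⟩
  haveI : IsScalarTower ℚ (MonoidAlgebra ℚ G) N := ⟨fun q a x => by
    rw [Algebra.smul_def, mul_smul]; rfl⟩
  haveI : IsScalarTower ℚ (MonoidAlgebra ℚ G) K := ⟨fun q a x => by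
    rw [Algebra.smul_def, mul_smul]; rfl⟩
  haveI : Module.Finite ℚ M := Module.Finite.trans (MonoidAlgebra ℚ G) M
  haveI : Module.Finite ℚ N := Module.Finite.trans (MonoidAlgebra ℚ G) N
  haveI : Module.Finite ℚ K := Module.Finite.trans (MonoidAlgebra ℚ G) K
  exact cancel_of_semisimple ℚ (MonoidAlgebra ℚ G) M N K e

end PermRep
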